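import Pool.Agent.Lib.MP_ef5fdc_co.Main

/-!
# A non-convex anisohedral hexagon

The definitions of the statement are in `Pool/Agent/Lib/MP_ef5fdc_co/Defs.lean`. The hexagon is
`T0` (`Pool/Agent/Lib/MP_ef5fdc_co/Shape.lean`), with the vertices
`(0, 0), (1, 1), (3, 1), (3, 4), (-1, 4), (-1, 1)`.
-/

set_option autoImplicit false

namespace Pool.Agent.Results.MP_ef5fdc_co.NonConvexHexagon

open Pool.Agent.MP_ef5fdc_co

/-- There is a non-convex hexagon which is anisohedral: it is the prototile of a monohedral tiling
of the plane, but not the prototile of any isohedral tiling. -/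
theorem result : ∃ T : Set Plane, IsHexagon T ∧ ¬ Convex ℝ T ∧ IsAnisohedral T :=
  main

end Pool.Agent.Results.MP_ef5fdc_co.NonConvexHexagon
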